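import Pool.Agent.X306.RL.Gp
import Pool.Agent.X306.EM.Main

set_option autoImplicit false
set_option linter.unusedVariables false
set_option linter.unusedSectionVars false
set_option linter.unusedSimpArgs false

/-!
# The part of the Lie algebra which respects the blocks
-/

open Matrix MvPolynomial

noncomputable section

namespace Pool.Agent.X306.RL

open Pool.Agent.TH127.PT Pool.Agent.Y123.ST Pool.Agent.TH119.DR Pool.Agent.TH119.MX

variable {C : Type} [Fintype C] [DecidableEq C] {R : C → Type} [∀ c, Fintype (R c)]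
  [∀ c, DecidableEq (R c)] {J : Type} [Fintype J] [DecidableEq J] {B : Type} [Fintype B] [DecidableEq B]

/-- elements of the Lie algebra with two blocks -/
def Wm (y : Matrix B B ℂ) (x : LT C R J) : Matrix (B ⊕ Ix C R J) (B ⊕ Ix C R J) ℂ := fromBlocks y 0 0 (bm x 0)

theorem Wm_add (y y' : Matrix B B ℂ) (x x' : LT C R J) : Wm (y + y') (x + x') = Wm y x + Wm y' x' := by
  unfold Wm
  rw [fromBlocks_add, bm_add, add_zero, add_zero, add_zero]

theorem Wm_smul (a : ℂ) (y : Matrix B B ℂ) (x : LT C R J) : Wm (a • y) (a • x) = a • Wm y x := by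
  unfold Wm
  rw [fromBlocks_smul, bm_smul, smul_zero, smul_zero, mul_zero]

theorem Wm_zero : Wm (0 : Matrix B B ℂ) (0 : LT C R J) = 0 := by
  have h := Wm_smul 0 (0 : Matrix B B ℂ) (0 : LT C R J)
  rwa [zero_smul, zero_smul, zero_smul] at h

theorem Wm_br (y y' : Matrix B B ℂ) (x x' : LT C R J) :
    Wm y x * Wm y' x' - Wm y' x' * Wm y x = Wm (y * y' - y' * y) (br x x') := by
  unfold Wm
  rw [fromBlocks_multiply, fromBlocks_multiply, ← br_bm, sub_eq_add_neg, fromBlocks_neg, fromBlocks_add]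
  simp [sub_eq_add_neg]

theorem Wm_map {f : ℂ → ℂ} (hf : f 0 = 0) (y : Matrix B B ℂ) (x : LT C R J) :
    (Wm y x).map f = Wm (y.map f) (mp f x) := by
  unfold Wm
  rw [fromBlocks_map, bm_map hf, hf, Matrix.map_zero _ hf, Matrix.map_zero _ hf]

variable (D : Per C R J) (C₀ : Matrix B B ℂ)

/-- the period matrix of the sum -/
def cm : Matrix (B ⊕ Ix C R J) (B ⊕ Ix C R J) ℂ := fromBlocks C₀ 0 0 (pm D)

/-- its inverse -/
def cm' : Matrix (B ⊕ Ix C R J) (B ⊕ Ix C R J) ℂ := fromBlocks C₀⁻¹ 0 0 (pm' D)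

variable {C₀} (h0 : IsUnit C₀)
include h0

theorem c0_inv : C₀ * C₀⁻¹ = 1 := Matrix.mul_nonsing_inv _ ((Matrix.isUnit_iff_isUnit_det _).1 h0)

theorem inv_c0 : C₀⁻¹ * C₀ = 1 := Matrix.nonsing_inv_mul _ ((Matrix.isUnit_iff_isUnit_det _).1 h0)

theorem cm_inv : (cm D C₀)⁻¹ = cm' D C₀ := by
  apply Matrix.inv_eq_right_inv
  unfold cm cm'
  rw [fromBlocks_multiply, pm_pm', c0_inv h0]
  simp

theorem cm_conj (y : Matrix B B ℂ) (x : LT C R J) :
    (cm D C₀)⁻¹ * Wm y x * cm D C₀ = Wm (C₀⁻¹ * y * C₀) (kap D x) := by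
  rw [cm_inv D h0]
  unfold cm cm' Wm
  rw [fromBlocks_multiply, fromBlocks_multiply, ← conj_kap]
  simp

theorem cm_conj' (y : Matrix B B ℂ) (x : LT C R J) :
    cm D C₀ * Wm y x * (cm D C₀)⁻¹ = Wm (C₀ * y * C₀⁻¹) (kapi D x) := by
  rw [cm_inv D h0]
  unfold cm cm' Wm
  rw [fromBlocks_multiply, fromBlocks_multiply, ← conj_kapi]
  simp

theorem cm_der (δ : Derivation ℚ ℂ ℂ) :
    (cm D C₀).map δ * (cm D C₀)⁻¹ = Wm (C₀.map δ * C₀⁻¹) (lam D δ) := by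
  rw [cm_inv D h0]
  unfold cm cm' Wm
  rw [fromBlocks_map, Matrix.map_zero _ (map_zero δ), Matrix.map_zero _ (map_zero δ), fromBlocks_multiply, ← der_lam]
  simp

omit h0

variable {D} {F K : Subfield ℂ} {T : Set (Matrix (B ⊕ Ix C R J) (B ⊕ Ix C R J) ℂ)}

/-- the elements of the Lie algebra with two blocks -/
def Gr (T : Set (Matrix (B ⊕ Ix C R J) (B ⊕ Ix C R J) ℂ)) : Submodule ℂ (Matrix B B ℂ × LT C R J) where
  carrier := {p | (∀ c, (p.2.1 c).trace = p.2.2.2.1) ∧ fl (Wm p.1 p.2) ∈ LL T}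
  zero_mem' := by
    refine ⟨fun c => Matrix.trace_zero _ _, ?_⟩
    change fl (Wm 0 0) ∈ LL T
    rw [Wm_zero, fl_zero]
    exact (LL T).zero_mem
  add_mem' := by
    rintro p q ⟨h1, h2⟩ ⟨h3, h4⟩
    refine ⟨fun c => ?_, ?_⟩
    · change (p.2.1 c + q.2.1 c).trace = p.2.2.2.1 + q.2.2.2.1
      rw [Matrix.trace_add, h1, h3]
    · change fl (Wm (p.1 + q.1) (p.2 + q.2)) ∈ LL T
      rw [Wm_add, fl_add]
      exact (LL T).add_mem h2 h4
  smul_mem' := by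
    rintro a p ⟨h1, h2⟩
    refine ⟨fun c => ?_, ?_⟩
    · change (a • p.2.1 c).trace = a * p.2.2.2.1
      rw [Matrix.trace_smul, h1, smul_eq_mul]
    · change fl (Wm (a • p.1) (a • p.2)) ∈ LL T
      rw [Wm_smul, fl_smul]
      exact (LL T).smul_mem a h2

theorem mem_Gr {y : Matrix B B ℂ} {x : LT C R J} :
    (y, x) ∈ Gr T ↔ (∀ c, (x.1 c).trace = x.2.2.1) ∧ fl (Wm y x) ∈ LL T := Iff.rfl

theorem Gr_br {y y' : Matrix B B ℂ} {x x' : LT C R J} (h : (y, x) ∈ Gr T) (h' : (y', x') ∈ Gr T) :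
    (y * y' - y' * y, br x x') ∈ Gr T := by
  refine mem_Gr.2 ⟨fun c => ?_, ?_⟩
  · change (x.1 c * x'.1 c - x'.1 c * x.1 c).trace = 0
    rw [Matrix.trace_sub, Matrix.trace_mul_comm, sub_self]
  · rw [← Wm_br]
    exact LL_br h.2 h'.2

theorem Gr_F (hF : DefOver F (LL T)) (f : ℂ →ₗ[F] ℂ) {y : Matrix B B ℂ} {x : LT C R J} (h : (y, x) ∈ Gr T) :
    (y.map f, mp f x) ∈ Gr T := by
  refine mem_Gr.2 ⟨fun c => ?_, ?_⟩
  · change ((x.1 c).map f).trace = f x.2.2.1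
    rw [← h.1 c, Matrix.trace_fin_two, Matrix.trace_fin_two, map_add]
    rfl
  · rw [← Wm_map (map_zero f)]
    exact hF.map f h.2

theorem Gr_K (hT : IsSubtorsor K T) (h0 : IsUnit C₀) (hc : cm D C₀ ∈ T) (f : ℂ →ₗ[K] ℂ) {y : Matrix B B ℂ}
    {x : LT C R J} (h : (y, x) ∈ Gr T) :
    (C₀ * (C₀⁻¹ * y * C₀).map f * C₀⁻¹, kapi D (mp f (kap D x))) ∈ Gr T := by
  refine mem_Gr.2 ⟨fun c => ?_, ?_⟩
  · change (D.P c * (D.P' c * x.1 c * D.P c).map f * D.P' c).trace = f x.2.2.1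
    rw [Matrix.trace_mul_comm, ← Matrix.mul_assoc, D.P'P, Matrix.one_mul, ← h.1 c]
    have h1 : (D.P' c * x.1 c * D.P c).trace = (x.1 c).trace := by
      rw [Matrix.trace_mul_comm, ← Matrix.mul_assoc, D.PP', Matrix.one_mul]
    change _ = f (x.1 c).trace
    rw [← h1, Matrix.trace_fin_two, Matrix.trace_fin_two, map_add]
    rfl
  · have h1 := conj_mem hT hc h.2
    rw [cm_conj D h0] at h1
    have h2 := (RR_def hT).map f h1
    have h3 : fl ((Wm (C₀⁻¹ * y * C₀) (kap D x)).map f) ∈ RR T := h2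
    rw [Wm_map (map_zero f)] at h3
    have h4 := conj_mem' hT hc h3
    rwa [cm_conj' D h0] at h4

/-- a derivation over a field of algebraic numbers -/
def derD (δ : Derivation ℚ ℂ ℂ) (K : Subfield ℂ) (hK : ∀ x ∈ K, IsAlgebraic ℚ x) : Derivation K ℂ ℂ where
  toLinearMap := derK δ K hK
  map_one_eq_zero' := δ.map_one_eq_zero
  leibniz' a b := δ.leibniz a b

theorem Gr_der (hT : IsSubtorsor K T) (hKA : ∀ x ∈ K, IsAlgebraic ℚ x) (hL : Leg D) (h0 : IsUnit C₀)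
    (hc : cm D C₀ ∈ T) (δ : Derivation ℚ ℂ ℂ) : (C₀.map δ * C₀⁻¹, lam D δ) ∈ Gr T := by
  refine mem_Gr.2 ⟨fun c => ?_, ?_⟩
  · change ((D.P c).map δ * D.P' c).trace = δ D.w / D.w
    obtain ⟨n, hn, hn2⟩ := hL c
    have h1 := tr_der δ (D.P'P c)
    have hdet : (D.P c).det ≠ 0 := by
      intro h
      have h2 := congrArg Matrix.det (D.PP' c)
      rw [Matrix.det_mul, h, zero_mul, Matrix.det_one] at h2
      exact zero_ne_one h2
    have hn0 : n ≠ 0 := by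
      rintro rfl
      rw [zero_mul] at hn2
      exact hdet hn2
    rw [hn2, Derivation.leibniz, deriv_alg δ hn, smul_zero, add_zero, smul_eq_mul] at h1
    rw [eq_div_iff D.w0]
    have h2 : n * (((D.P c).map δ * D.P' c).trace * D.w) = n * δ D.w := by
      rw [← h1]
      ring
    exact mul_left_cancel₀ hn0 h2
  · rw [← cm_der D h0]
    exact logder_mem hT (derD δ K hKA) hc

/-- the projection to the second block -/
def Sg (T : Set (Matrix (B ⊕ Ix C R J) (B ⊕ Ix C R J) ℂ)) : Submodule ℂ (LT C R J) :=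
  (Gr T).map (LinearMap.snd ℂ (Matrix B B ℂ) (LT C R J))

theorem mem_Sg {x : LT C R J} : x ∈ Sg T ↔ ∃ y, (y, x) ∈ Gr T := by
  constructor
  · rintro ⟨⟨y, x⟩, h, rfl⟩
    exact ⟨y, h⟩
  · rintro ⟨y, h⟩
    exact ⟨(y, x), h, rfl⟩

theorem good_Sg (hT : IsSubtorsor K T) (hF : DefOver F (LL T)) (hKA : ∀ x ∈ K, IsAlgebraic ℚ x) (hL : Leg D)
    (h0 : IsUnit C₀) (hc : cm D C₀ ∈ T) : Good D F K (Sg T) where
  htr x hx := by
    obtain ⟨y, h⟩ := mem_Sg.1 hx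
    exact h.1
  hbr x hx x' hx' := by
    obtain ⟨y, h⟩ := mem_Sg.1 hx
    obtain ⟨y', h'⟩ := mem_Sg.1 hx'
    exact mem_Sg.2 ⟨_, Gr_br h h'⟩
  hF f x hx := by
    obtain ⟨y, h⟩ := mem_Sg.1 hx
    exact mem_Sg.2 ⟨_, Gr_F hF f h⟩
  hK f x hx := by
    obtain ⟨y, h⟩ := mem_Sg.1 hx
    exact mem_Sg.2 ⟨_, Gr_K hT h0 hc f h⟩
  hder δ := mem_Sg.2 ⟨_, Gr_der hT hKA hL h0 hc δ⟩

end Pool.Agent.X306.RL
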