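import Pool.Agent.Y123.ST.Exp

set_option autoImplicit false
set_option linter.unusedVariables false
set_option linter.unusedSectionVars false
set_option linter.unusedSimpArgs false

/-!
# The Lie algebra of a subtorsor is closed under commutators
-/

open Matrix MvPolynomial

noncomputable section

namespace Pool.Agent.X306.RL

open Pool.Agent.TH127.PT Pool.Agent.Y123.ST

variable {N : Type} [Fintype N] [DecidableEq N]

/-- the derivation given by a linear vector field -/
def Dv (w : Matrix N N ℂ) : Derivation ℂ (MvPolynomial (N × N) ℂ) (MvPolynomial (N × N) ℂ) :=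
  ∑ b, sb (ml w) b • pderiv b

theorem Dv_apply (w : Matrix N N ℂ) (P : MvPolynomial (N × N) ℂ) : Dv w P = DL w P := by
  unfold Dv DL
  have h1 : ∀ s : Finset (N × N), (∑ b ∈ s, sb (ml w) b • pderiv b :
      Derivation ℂ (MvPolynomial (N × N) ℂ) (MvPolynomial (N × N) ℂ)) P = ∑ b ∈ s, pderiv b P * sb (ml w) b := by
    intro s
    induction s using Finset.induction_on with
    | empty => rw [Finset.sum_empty, Finset.sum_empty, Derivation.zero_apply]
    | insert b s hb ih =>
      rw [Finset.sum_insert hb, Finset.sum_insert hb, Derivation.add_apply, ih, Derivation.smul_apply, smul_eq_mul,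
        mul_comm]
  exact h1 _

theorem Dv_X (w : Matrix N N ℂ) (b : N × N) : Dv w (X b) = sb (ml w) b := by
  rw [Dv_apply, DL, Finset.sum_eq_single b]
  · rw [pderiv_X_self, one_mul]
  · intro b' _ hb'
    rw [pderiv_X_of_ne (Ne.symm hb'), zero_mul]
  · intro h
    exact absurd (Finset.mem_univ _) h

theorem Dv_sb (w w' : Matrix N N ℂ) (b : N × N) : Dv w (sb (ml w') b) = sb (ml (w' * w)) b := by
  apply MvPolynomial.funext
  intro y
  rw [Dv_apply, eval_DL, dd_sb, eval_sb]
  change fl (w' * um (fl (w * um y))) b = fl (w' * w * um y) b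
  rw [um_fl, Matrix.mul_assoc]

theorem sb_sub (w w' : Matrix N N ℂ) (b : N × N) : sb (ml (w - w')) b = sb (ml w) b - sb (ml w') b := by
  apply MvPolynomial.funext
  intro y
  rw [map_sub, eval_sb, eval_sb, eval_sb]
  change fl ((w - w') * um y) b = fl (w * um y) b - fl (w' * um y) b
  rw [Matrix.sub_mul]
  rfl

theorem Dv_comm (w w' : Matrix N N ℂ) : ⁅Dv w, Dv w'⁆ = Dv (w' * w - w * w') := by
  apply MvPolynomial.derivation_ext
  intro b
  rw [Derivation.commutator_apply, Dv_X, Dv_X, Dv_X, Dv_sb, Dv_sb, sb_sub]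

variable {K : Subfield ℂ} {T : Set (Matrix N N ℂ)}

/-- **The Lie algebra is closed under commutators.** -/
theorem LL_br {w w' : Matrix N N ℂ} (hw : fl w ∈ LL T) (hw' : fl w' ∈ LL T) : fl (w * w' - w' * w) ∈ LL T := by
  intro P hP x hx
  have h1 := van_DL hw (van_DL hw' hP) x hx
  have h2 := van_DL hw' (van_DL hw hP) x hx
  have h3 := congrArg (fun D : Derivation ℂ (MvPolynomial (N × N) ℂ) (MvPolynomial (N × N) ℂ) => eval (fl x) (D P))
    (Dv_comm w' w)
  simp only [Derivation.commutator_apply, Dv_apply, map_sub] at h3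
  rw [h1, h2, sub_zero, eval_DL] at h3
  rw [um_fl]
  exact h3.symm

end Pool.Agent.X306.RL
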