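import Pool.Agent.X306.RL.Ex

set_option autoImplicit false
set_option linter.unusedVariables false
set_option linter.unusedSectionVars false
set_option linter.unusedSimpArgs false

/-!
# The second alternative: homomorphisms to the Lie algebra object of a curve
-/

open Matrix MvPolynomial

noncomputable section

namespace Pool.Agent.X306.RL

open Pool.Agent.TH127.PT Pool.Agent.Y123.ST Pool.Agent.TH119.DR Pool.Agent.TH119.MX Pool.Agent.X306.EM W245.EB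

variable {B : Type} [Fintype B] [DecidableEq B]

/-- the graph of a homomorphism of a Lie subalgebra object of the endomorphisms of an object with period matrix `C₀` onto the
Lie algebra `sl₂` of an object with period matrix `P` -/
structure Cpl (F K : Subfield ℂ) (C₀ : Matrix B B ℂ) (P P' : M2) (Γ : Submodule ℂ (Matrix B B ℂ × M2)) : Prop where
  inj : ∀ x, ((0 : Matrix B B ℂ), x) ∈ Γ → x = 0
  tr : ∀ p ∈ Γ, p.2.trace = 0
  surj : ∀ x : M2, x.trace = 0 → ∃ y, (y, x) ∈ Γ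
  br : ∀ p ∈ Γ, ∀ q ∈ Γ, (p.1 * q.1 - q.1 * p.1, p.2 * q.2 - q.2 * p.2) ∈ Γ
  hF : ∀ f : ℂ →ₗ[F] ℂ, ∀ p ∈ Γ, (p.1.map f, p.2.map f) ∈ Γ
  hK : ∀ f : ℂ →ₗ[K] ℂ, ∀ p ∈ Γ, (C₀ * (C₀⁻¹ * p.1 * C₀).map f * C₀⁻¹, P * (P' * p.2 * P).map f * P') ∈ Γ

variable {C : Type} [Fintype C] [DecidableEq C] {R : C → Type} [∀ c, Fintype (R c)]
  [∀ c, DecidableEq (R c)] {J : Type} [Fintype J] [DecidableEq J]

variable {T : Set (Matrix (B ⊕ Ix C R J) (B ⊕ Ix C R J) ℂ)} {D : Per C R J} {F K : Subfield ℂ} {C₀ : Matrix B B ℂ}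

/-- the projection to the first block and to the traceless part of a component -/
def prc (B : Type) (R : C → Type) (J : Type) [∀ c, Fintype (R c)] [∀ c, DecidableEq (R c)] [Fintype J]
    [DecidableEq J] (c : C) : Matrix B B ℂ × LT C R J →ₗ[ℂ] Matrix B B ℂ × M2 :=
  (LinearMap.fst ℂ (Matrix B B ℂ) (LT C R J)).prod ((prq c).comp (LinearMap.snd ℂ (Matrix B B ℂ) (LT C R J)))

theorem prc_apply (c : C) (p : Matrix B B ℂ × LT C R J) : prc B R J c p = (p.1, q0 (p.2.1 c)) := rfl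

/-- **The second alternative.** -/
theorem cpl_of (hT : IsSubtorsor K T) (hF : DefOver F (LL T)) (h0 : IsUnit C₀) (hc : cm D C₀ ∈ T)
    (hfull : ∀ x : LT C R J, (∀ c, (x.1 c).trace = x.2.2.1) → x ∈ Sg T) (c : C)
    (hk : ∀ k ∈ Kd T, q0 (k.1 c) = 0) : Cpl F K C₀ (D.P c) (D.P' c) ((Gr T).map (prc B R J c)) where
  inj x hx := by
    obtain ⟨⟨y, x'⟩, h, e⟩ := hx
    rw [prc_apply, Prod.mk.injEq] at e
    obtain ⟨e1, e2⟩ := e
    simp only at e1 e2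
    rw [e1] at h
    rw [← e2]
    exact hk _ h
  tr p hp := by
    obtain ⟨⟨y, x'⟩, h, rfl⟩ := hp
    exact trace_q0 _
  surj x hx := by
    obtain ⟨y, hy⟩ := mem_Sg.1 (single_mem hfull c hx)
    refine ⟨y, (y, (Pi.single c x, 0, 0, 0)), hy, ?_⟩
    rw [prc_apply]
    change (y, q0 (Pi.single (M := fun _ : C => M2) c x c)) = (y, x)
    rw [Pi.single_eq_same, q0_of_trace hx]
  br p hp q hq := by
    obtain ⟨⟨y, x⟩, h, rfl⟩ := hp
    obtain ⟨⟨y', x'⟩, h', rfl⟩ := hq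
    refine ⟨_, Gr_br h h', ?_⟩
    rw [prc_apply, prc_apply, prc_apply]
    simp only
    rw [q0_br]
  hF f p hp := by
    obtain ⟨⟨y, x⟩, h, rfl⟩ := hp
    refine ⟨_, Gr_F hF f h, ?_⟩
    rw [prc_apply, prc_apply]
    exact Prod.ext rfl (q0_map f _)
  hK f p hp := by
    obtain ⟨⟨y, x⟩, h, rfl⟩ := hp
    refine ⟨_, Gr_K hT h0 hc f h, ?_⟩
    rw [prc_apply, prc_apply]
    refine Prod.ext rfl ?_
    change q0 (D.P c * (D.P' c * x.1 c * D.P c).map f * D.P' c) =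
      D.P c * (D.P' c * q0 (x.1 c) * D.P c).map f * D.P' c
    rw [q0_conj (D.PP' c) (D.P'P c), q0_map, q0_conj (D.P'P c) (D.PP' c)]

/-- **The dichotomy.** -/
theorem dich (hT : IsSubtorsor K T) (hF : DefOver F (LL T)) (h0 : IsUnit C₀) (hc : cm D C₀ ∈ T)
    (hfull : ∀ x : LT C R J, (∀ c, (x.1 c).trace = x.2.2.1) → x ∈ Sg T)
    (hno : ∀ c Γ, ¬ Cpl F K C₀ (D.P c) (D.P' c) Γ) {a : C → M2} (ha : ∀ c, (a c).det = 1)
    (b : (c : C) → Matrix (R c) (Fin 2) ℂ) : Pst T (bm ((a, b, 1, 0) : LT C R J) 1) := by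
  have h1 : ∀ c, ∃ k ∈ Kd T, q0 (k.1 c) ≠ 0 := by
    by_contra hcon
    push Not at hcon
    obtain ⟨c, hk⟩ := hcon
    exact hno c _ (cpl_of hT hF h0 hc hfull c hk)
  exact pst_all hT (fun x hx b => Kd_full hfull h1 hx b) ha b

/-! ### Rationality in terms of generators -/

/-- pairs of matrices as functions -/
def ev (B : Type) [Fintype B] [DecidableEq B] : (Matrix B B ℂ × M2) →ₗ[ℂ] ((B × B) ⊕ (Fin 2 × Fin 2) → ℂ) where
  toFun p := Sum.elim (fun b => p.1 b.1 b.2) (fun b => p.2 b.1 b.2)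
  map_add' p q := by
    funext s
    rcases s with s | s <;> rfl
  map_smul' a p := by
    funext s
    rcases s with s | s <;> rfl

/-- the inverse -/
def ve (B : Type) [Fintype B] [DecidableEq B] : ((B × B) ⊕ (Fin 2 × Fin 2) → ℂ) →ₗ[ℂ] (Matrix B B ℂ × M2) where
  toFun v := (Matrix.of fun i j => v (Sum.inl (i, j)), Matrix.of fun i j => v (Sum.inr (i, j)))
  map_add' p q := rfl
  map_smul' a p := rfl

theorem ve_ev (p : Matrix B B ℂ × M2) : ve B (ev B p) = p := rfl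

theorem ev_ve (v : (B × B) ⊕ (Fin 2 × Fin 2) → ℂ) : ev B (ve B v) = v := by
  funext s
  rcases s with s | s <;> rfl

theorem span_of_map {Γ : Submodule ℂ (Matrix B B ℂ × M2)}
    (h : ∀ f : ℂ →ₗ[F] ℂ, ∀ p ∈ Γ, (p.1.map f, p.2.map f) ∈ Γ) :
    Γ ≤ Submodule.span ℂ {p | p ∈ Γ ∧ (∀ i j, p.1 i j ∈ F) ∧ ∀ i j, p.2 i j ∈ F} := by
  have h1 : DefOver F (Γ.comap (ve B)) := by
    refine defOver_of_map fun f w hw => ?_
    exact h f _ hw
  intro p hp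
  have h2 : ev B p ∈ Γ.comap (ve B) := by
    change ve B (ev B p) ∈ Γ
    rwa [ve_ev]
  have h3 := h1 h2
  have h4 := Submodule.mem_map_of_mem (f := ve B) h3
  rw [ve_ev, Submodule.map_span] at h4
  refine Submodule.span_mono ?_ h4
  rintro _ ⟨w, ⟨hw1, hw2⟩, rfl⟩
  exact ⟨hw1, fun i j => hw2 _, fun i j => hw2 _⟩

theorem map_of_span {Γ : Submodule ℂ (Matrix B B ℂ × M2)}
    (h : Γ ≤ Submodule.span ℂ {p | p ∈ Γ ∧ (∀ i j, p.1 i j ∈ F) ∧ ∀ i j, p.2 i j ∈ F}) (f : ℂ →ₗ[F] ℂ)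
    {p : Matrix B B ℂ × M2} (hp : p ∈ Γ) : (p.1.map f, p.2.map f) ∈ Γ := by
  have h1 : DefOver F (Γ.comap (ve B)) := by
    intro w hw
    have h2 := Submodule.mem_map_of_mem (f := ev B) (h hw)
    rw [ev_ve, Submodule.map_span] at h2
    refine Submodule.span_mono ?_ h2
    rintro _ ⟨q, ⟨hq1, hq2, hq3⟩, rfl⟩
    refine ⟨?_, ?_⟩
    · change ve B (ev B q) ∈ Γ
      rwa [ve_ev]
    · rintro (s | s)
      · exact hq2 _ _
      · exact hq3 _ _
  have h2 : ev B p ∈ Γ.comap (ve B) := by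
    change ve B (ev B p) ∈ Γ
    rwa [ve_ev]
  exact h1.map f h2

/-- conjugation of both components -/
def cj (A A' : Matrix B B ℂ) (Q Q' : M2) : (Matrix B B ℂ × M2) →ₗ[ℂ] (Matrix B B ℂ × M2) where
  toFun p := (A * p.1 * A', Q * p.2 * Q')
  map_add' p q := by
    refine Prod.ext ?_ ?_
    · change A * (p.1 + q.1) * A' = A * p.1 * A' + A * q.1 * A'
      rw [Matrix.mul_add, Matrix.add_mul]
    · change Q * (p.2 + q.2) * Q' = Q * p.2 * Q' + Q * q.2 * Q'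
      rw [Matrix.mul_add, Matrix.add_mul]
  map_smul' a p := by
    refine Prod.ext ?_ ?_
    · change A * (a • p.1) * A' = a • (A * p.1 * A')
      rw [Matrix.mul_smul, Matrix.smul_mul]
    · change Q * (a • p.2) * Q' = a • (Q * p.2 * Q')
      rw [Matrix.mul_smul, Matrix.smul_mul]

theorem cj_cj {A A' : Matrix B B ℂ} {Q Q' : M2} (h1 : A * A' = 1) (h2 : Q * Q' = 1) (p : Matrix B B ℂ × M2) :
    cj A A' Q Q' (cj A' A Q' Q p) = p := by
  refine Prod.ext ?_ ?_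
  · change A * (A' * p.1 * A) * A' = p.1
    calc A * (A' * p.1 * A) * A' = (A * A') * p.1 * (A * A') := by simp only [Matrix.mul_assoc]
      _ = p.1 := by rw [h1, Matrix.one_mul, Matrix.mul_one]
  · change Q * (Q' * p.2 * Q) * Q' = p.2
    calc Q * (Q' * p.2 * Q) * Q' = (Q * Q') * p.2 * (Q * Q') := by simp only [Matrix.mul_assoc]
      _ = p.2 := by rw [h2, Matrix.one_mul, Matrix.mul_one]

variable {A A' : Matrix B B ℂ} {Q Q' : M2}

theorem span_of_map' (h1 : A * A' = 1) (h1' : A' * A = 1) (h2 : Q * Q' = 1) (h2' : Q' * Q = 1)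
    {Γ : Submodule ℂ (Matrix B B ℂ × M2)}
    (h : ∀ f : ℂ →ₗ[K] ℂ, ∀ p ∈ Γ, (A * (A' * p.1 * A).map f * A', Q * (Q' * p.2 * Q).map f * Q') ∈ Γ) :
    Γ ≤ Submodule.span ℂ {p | p ∈ Γ ∧ (∀ i j, (A' * p.1 * A) i j ∈ K) ∧ ∀ i j, (Q' * p.2 * Q) i j ∈ K} := by
  have h3 : ∀ p : Matrix B B ℂ × M2, p ∈ Γ.comap (cj A A' Q Q') ↔ cj A A' Q Q' p ∈ Γ := fun p => Iff.rfl
  have h4 := span_of_map (F := K) (Γ := Γ.comap (cj A A' Q Q')) (fun f p hp => by
    have h5 := h f _ hp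
    rw [h3]
    refine (congrArg (· ∈ Γ) ?_).mp h5
    have e := cj_cj h1' h2' p
    have e1 : A' * (A * p.1 * A') * A = p.1 := congrArg Prod.fst e
    have e2 : Q' * (Q * p.2 * Q') * Q = p.2 := congrArg Prod.snd e
    refine Prod.ext ?_ ?_
    · change A * (A' * (A * p.1 * A') * A).map f * A' = A * p.1.map f * A'
      rw [e1]
    · change Q * (Q' * (Q * p.2 * Q') * Q).map f * Q' = Q * p.2.map f * Q'
      rw [e2])
  intro p hp
  have h5 : cj A' A Q' Q p ∈ Γ.comap (cj A A' Q Q') := by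
    rw [h3, cj_cj h1 h2]
    exact hp
  have h6 := Submodule.mem_map_of_mem (f := cj A A' Q Q') (h4 h5)
  rw [cj_cj h1 h2, Submodule.map_span] at h6
  refine Submodule.span_mono ?_ h6
  rintro _ ⟨w, ⟨hw1, hw2, hw3⟩, rfl⟩
  have e := cj_cj h1' h2' w
  have e1 : A' * (A * w.1 * A') * A = w.1 := congrArg Prod.fst e
  have e2 : Q' * (Q * w.2 * Q') * Q = w.2 := congrArg Prod.snd e
  refine ⟨hw1, fun i j => ?_, fun i j => ?_⟩
  · change (A' * (A * w.1 * A') * A) i j ∈ K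
    rw [e1]
    exact hw2 i j
  · change (Q' * (Q * w.2 * Q') * Q) i j ∈ K
    rw [e2]
    exact hw3 i j

theorem map_of_span' (h1 : A * A' = 1) (h1' : A' * A = 1) (h2 : Q * Q' = 1) (h2' : Q' * Q = 1)
    {Γ : Submodule ℂ (Matrix B B ℂ × M2)}
    (h : Γ ≤ Submodule.span ℂ {p | p ∈ Γ ∧ (∀ i j, (A' * p.1 * A) i j ∈ K) ∧ ∀ i j, (Q' * p.2 * Q) i j ∈ K})
    (f : ℂ →ₗ[K] ℂ) {p : Matrix B B ℂ × M2} (hp : p ∈ Γ) :
    (A * (A' * p.1 * A).map f * A', Q * (Q' * p.2 * Q).map f * Q') ∈ Γ := by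
  have h3 : ∀ p : Matrix B B ℂ × M2, p ∈ Γ.comap (cj A A' Q Q') ↔ cj A A' Q Q' p ∈ Γ := fun p => Iff.rfl
  refine map_of_span (F := K) (Γ := Γ.comap (cj A A' Q Q')) ?_ f (p := cj A' A Q' Q p) ?_
  · intro p hp
    have h4 := Submodule.mem_map_of_mem (f := cj A' A Q' Q) (h hp)
    rw [cj_cj h1' h2', Submodule.map_span] at h4
    refine Submodule.span_mono ?_ h4
    rintro _ ⟨w, ⟨hw1, hw2, hw3⟩, rfl⟩
    refine ⟨?_, hw2, hw3⟩
    rw [h3, cj_cj h1 h2]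
    exact hw1
  · rw [h3, cj_cj h1 h2]
    exact hp

end Pool.Agent.X306.RL
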