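import Pool.Agent.X306.RL.Idl

set_option autoImplicit false
set_option linter.unusedVariables false
set_option linter.unusedSectionVars false
set_option linter.unusedSimpArgs false

/-!
# From the kernel to the group
-/

open Matrix MvPolynomial

noncomputable section

namespace Pool.Agent.X306.RL

open Pool.Agent.TH127.PT Pool.Agent.Y123.ST Pool.Agent.TH119.DR Pool.Agent.TH119.MX Pool.Agent.X306.EM

variable {C : Type} [Fintype C] [DecidableEq C] {R : C → Type} [∀ c, Fintype (R c)]
  [∀ c, DecidableEq (R c)] {J : Type} [Fintype J] [DecidableEq J] {B : Type} [Fintype B] [DecidableEq B]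

variable {K : Subfield ℂ} {T : Set (Matrix (B ⊕ Ix C R J) (B ⊕ Ix C R J) ℂ)}

/-- `T` is stable under the left multiplication by an element of the second group -/
def Pst (T : Set (Matrix (B ⊕ Ix C R J) (B ⊕ Ix C R J) ℂ)) (h : Matrix (Ix C R J) (Ix C R J) ℂ) : Prop :=
  ∀ x ∈ T, fromBlocks 1 0 0 h * x ∈ T

theorem Pst.mul {g h : Matrix (Ix C R J) (Ix C R J) ℂ} (hg : Pst T g) (hh : Pst T h) : Pst T (g * h) := by
  intro x hx
  have h1 := hg _ (hh x hx)
  rw [← Matrix.mul_assoc, fromBlocks_multiply] at h1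
  simpa using h1

theorem pst_one (hT : IsSubtorsor K T) {x : LT C R J} (hx : x ∈ Kd T) (h : bp x x 0 = 0) :
    Pst T (bm (ux + x) 1) := by
  intro z hz
  have hE : Wm (0 : Matrix B B ℂ) x * Wm 0 x = 0 := by
    unfold Wm
    have h2 := bm_smul 0 (0 : LT C R J) 0
    rw [zero_smul, zero_smul, mul_zero] at h2
    rw [fromBlocks_multiply, bm_mul, h, mul_zero (0 : ℂ), ← h2]
    simp
  have h1 := exp_nil hT hE (mem_Kd.1 hx).2 hz 1
  rw [one_smul] at h1
  have h2 : 1 + Wm (0 : Matrix B B ℂ) x = fromBlocks 1 0 0 (bm (ux + x) 1) := by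
    unfold Wm
    rw [← fromBlocks_one, fromBlocks_add, ← bm_one, bm_add]
    simp
  rwa [h2] at h1

section

variable (hT : IsSubtorsor K T)
  (hk : ∀ x : C → M2, (∀ c, (x c).trace = 0) → ∀ b : (c : C) → Matrix (R c) (Fin 2) ℂ, ((x, b, 0, 0) : LT C R J) ∈ Kd T)

include hT hk

theorem pst_unip (b : (c : C) → Matrix (R c) (Fin 2) ℂ) : Pst T (bm ((fun _ => 1, b, 1, 0) : LT C R J) 1) := by
  have h1 := pst_one hT (hk 0 (fun _ => Matrix.trace_zero _ _) b) ?_
  · refine (congrArg (fun x => Pst T (bm x 1)) ?_).mp h1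
    refine Prod.ext (funext fun c => ?_) (Prod.ext (funext fun c => ?_) (Prod.ext ?_ (funext fun j => ?_)))
    · change (1 : M2) + (0 : M2) = 1
      simp
    · change (0 : Matrix (R c) (Fin 2) ℂ) + b c = b c
      simp
    · change (1 : ℂ) + 0 = 1
      ring
    · change (0 : ℂ) + 0 = 0
      ring
  · refine Prod.ext (funext fun c => ?_) (Prod.ext (funext fun c => ?_) (Prod.ext ?_ (funext fun j => ?_)))
    · change (0 : M2) * 0 = (0 : M2)
      simp
    · change b c * (0 : M2) + (0 : ℂ) • b c = 0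
      simp
    · change (0 : ℂ) * 0 = 0
      ring
    · change (0 : ℂ) * 0 + 0 * 0 = 0
      ring

theorem pst_elem (c : C) {N : M2} (hN : N * N = 0) (htr : N.trace = 0) :
    Pst T (bm ((Pi.mulSingle c (1 + N), 0, 1, 0) : LT C R J) 1) := by
  have h0 : ∀ c', (Pi.single (M := fun _ : C => M2) c N c').trace = 0 := by
    intro c'
    by_cases h : c' = c
    · subst h
      rw [Pi.single_eq_same, htr]
    · rw [Pi.single_eq_of_ne h, Matrix.trace_zero]
  have h1 := pst_one hT (hk (Pi.single c N) h0 0) ?_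
  · refine (congrArg (fun x => Pst T (bm x 1)) ?_).mp h1
    refine Prod.ext (funext fun c' => ?_) (Prod.ext (funext fun c' => ?_) (Prod.ext ?_ (funext fun j => ?_)))
    · change (1 : M2) + (Pi.single (M := fun _ : C => M2) c N c') =
        Pi.mulSingle (M := fun _ : C => M2) c (1 + N) c'
      by_cases h : c' = c
      · subst h
        rw [Pi.single_eq_same, Pi.mulSingle_eq_same]
      · rw [Pi.single_eq_of_ne h, Pi.mulSingle_eq_of_ne h, add_zero]
    · change (0 : Matrix (R c') (Fin 2) ℂ) + (0 : Matrix (R c') (Fin 2) ℂ) = 0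
      simp
    · change (1 : ℂ) + 0 = 1
      ring
    · change (0 : ℂ) + 0 = 0
      ring
  · refine Prod.ext (funext fun c' => ?_) (Prod.ext (funext fun c' => ?_) (Prod.ext ?_ (funext fun j => ?_)))
    · change (Pi.single (M := fun _ : C => M2) c N c') * (Pi.single (M := fun _ : C => M2) c N c') = 0
      by_cases h : c' = c
      · subst h
        rw [Pi.single_eq_same, hN]
      · rw [Pi.single_eq_of_ne h, mul_zero]
    · change (0 : Matrix (R c') (Fin 2) ℂ) * _ + (0 : ℂ) • (0 : Matrix (R c') (Fin 2) ℂ) = 0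
      simp
    · change (0 : ℂ) * 0 = 0
      ring
    · change (0 : ℂ) * 0 + 0 * 0 = 0
      ring

omit hT hk in
theorem pst_mul_single (c : C) {m n : M2}
    (hm : Pst T (bm ((Pi.mulSingle c m, 0, 1, 0) : LT C R J) 1))
    (hn : Pst T (bm ((Pi.mulSingle c n, 0, 1, 0) : LT C R J) 1)) :
    Pst T (bm ((Pi.mulSingle c (m * n), 0, 1, 0) : LT C R J) 1) := by
  have h1 := hm.mul hn
  rw [bm_mul, mul_one] at h1
  refine (congrArg (fun x => Pst T (bm x 1)) ?_).mp h1
  refine Prod.ext (funext fun c' => ?_) (Prod.ext (funext fun c' => ?_) (Prod.ext ?_ (funext fun j => ?_)))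
  · change Pi.mulSingle (M := fun _ : C => M2) c m c' * Pi.mulSingle (M := fun _ : C => M2) c n c' =
      Pi.mulSingle (M := fun _ : C => M2) c (m * n) c'
    by_cases h : c' = c
    · subst h
      rw [Pi.mulSingle_eq_same, Pi.mulSingle_eq_same, Pi.mulSingle_eq_same]
    · rw [Pi.mulSingle_eq_of_ne h, Pi.mulSingle_eq_of_ne h, Pi.mulSingle_eq_of_ne h, mul_one]
  · change (0 : Matrix (R c') (Fin 2) ℂ) * _ + (1 : ℂ) • (0 : Matrix (R c') (Fin 2) ℂ) = 0
    simp
  · change (1 : ℂ) * 1 = 1
    ring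
  · change (0 : ℂ) * 1 + 1 * 0 = 0
    ring

theorem pst_sl (c : C) {m : M2} (hm : m.det = 1) : Pst T (bm ((Pi.mulSingle c m, 0, 1, 0) : LT C R J) 1) := by
  have hu : ∀ s : ℂ, Pst T (bm ((Pi.mulSingle c (!![1, s; 0, 1] : M2), 0, 1, 0) : LT C R J) 1) := by
    intro s
    have h1 := pst_elem hT hk c (N := !![0, s; 0, 0]) (by
      ext i j
      fin_cases i <;> fin_cases j <;> simp) (by simp [Matrix.trace_fin_two])
    have h2 : (1 : M2) + !![0, s; 0, 0] = !![1, s; 0, 1] := by
      ext i j
      fin_cases i <;> fin_cases j <;> simp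
    rwa [h2] at h1
  have hl : ∀ s : ℂ, Pst T (bm ((Pi.mulSingle c (!![1, 0; s, 1] : M2), 0, 1, 0) : LT C R J) 1) := by
    intro s
    have h1 := pst_elem hT hk c (N := !![0, 0; s, 0]) (by
      ext i j
      fin_cases i <;> fin_cases j <;> simp) (by simp [Matrix.trace_fin_two])
    have h2 : (1 : M2) + !![0, 0; s, 0] = !![1, 0; s, 1] := by
      ext i j
      fin_cases i <;> fin_cases j <;> simp
    rwa [h2] at h1
  have key : ∀ m : M2, m.det = 1 → m 1 0 ≠ 0 →
      Pst T (bm ((Pi.mulSingle c m, 0, 1, 0) : LT C R J) 1) := by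
    intro m hm h0
    rw [Matrix.det_fin_two] at hm
    have h1 : m = !![1, (m 0 0 - 1) / m 1 0; 0, 1] * !![1, 0; m 1 0, 1] *
        !![1, (m 1 1 - 1) / m 1 0; 0, 1] := by
      ext i j
      fin_cases i <;> fin_cases j
      · simp only [Fin.zero_eta, Matrix.mul_apply, Fin.sum_univ_two]
        simp
        field_simp
        ring
      · simp only [Fin.zero_eta, Fin.mk_one, Matrix.mul_apply, Fin.sum_univ_two]
        simp
        field_simp
        linear_combination (-1 : ℂ) * hm
      · simp only [Fin.zero_eta, Fin.mk_one, Matrix.mul_apply, Fin.sum_univ_two]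
        simp
      · simp only [Fin.mk_one, Matrix.mul_apply, Fin.sum_univ_two]
        simp
        field_simp
        ring
    rw [h1]
    exact pst_mul_single c (pst_mul_single c (hu _) (hl _)) (hu _)
  by_cases h0 : m 1 0 = 0
  · have h1 : m = m * !![1, 0; 1, 1] * !![1, 0; -1, 1] := by
      rw [Matrix.mul_assoc]
      have h2 : (!![1, 0; 1, 1] : M2) * !![1, 0; -1, 1] = 1 := by
        ext i j
        fin_cases i <;> fin_cases j <;> simp
      rw [h2, Matrix.mul_one]
    rw [h1]
    refine pst_mul_single c (key _ ?_ ?_) (hl _)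
    · rw [Matrix.det_mul, hm, Matrix.det_fin_two]
      simp
    · rw [Matrix.det_fin_two, h0, mul_zero, sub_zero] at hm
      rw [Matrix.mul_apply, Fin.sum_univ_two]
      simp only [Matrix.of_apply, Matrix.cons_val', Matrix.cons_val_zero, Matrix.cons_val_one,
        Matrix.cons_val_fin_one, mul_one, h0, zero_add]
      intro h
      rw [h, mul_zero] at hm
      exact zero_ne_one hm
  · exact key m hm h0

theorem pst_sls {a : C → M2} (ha : ∀ c, (a c).det = 1) : Pst T (bm ((a, 0, 1, 0) : LT C R J) 1) := by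
  have key : ∀ E : Finset C, Pst T (bm ((fun c => if c ∈ E then a c else 1, 0, 1, 0) : LT C R J) 1) := by
    intro E
    induction E using Finset.induction_on with
    | empty =>
      have h1 : Pst T (bm ((fun _ => 1, 0, 1, 0) : LT C R J) 1) := pst_unip hT hk 0
      simpa using h1
    | insert d E hd ih =>
      have h1 := (pst_sl hT hk d (ha d)).mul ih
      rw [bm_mul, mul_one] at h1
      refine (congrArg (fun x => Pst T (bm x 1)) ?_).mp h1
      refine Prod.ext (funext fun c' => ?_) (Prod.ext (funext fun c' => ?_) (Prod.ext ?_ (funext fun j => ?_)))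
      · change Pi.mulSingle (M := fun _ : C => M2) d (a d) c' * (if c' ∈ E then a c' else 1) =
          if c' ∈ insert d E then a c' else 1
        by_cases h : c' = d
        · subst h
          rw [Pi.mulSingle_eq_same, if_neg hd, if_pos (Finset.mem_insert_self _ _), mul_one]
        · rw [Pi.mulSingle_eq_of_ne h, one_mul]
          simp [h]
      · change (0 : Matrix (R c') (Fin 2) ℂ) * _ + (1 : ℂ) • (0 : Matrix (R c') (Fin 2) ℂ) = 0
        simp
      · change (1 : ℂ) * 1 = 1
        ring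
      · change (0 : ℂ) * 1 + 1 * 0 = 0
        ring
  have h1 := key Finset.univ
  simpa using h1

/-- **The group.** -/
theorem pst_all {a : C → M2} (ha : ∀ c, (a c).det = 1) (b : (c : C) → Matrix (R c) (Fin 2) ℂ) :
    Pst T (bm ((a, b, 1, 0) : LT C R J) 1) := by
  have h2 := (pst_unip hT hk (fun c => b c * (a c)⁻¹)).mul (pst_sls hT hk ha)
  rw [bm_mul, mul_one] at h2
  refine (congrArg (fun x => Pst T (bm x 1)) ?_).mp h2
  refine Prod.ext (funext fun c' => ?_) (Prod.ext (funext fun c' => ?_) (Prod.ext ?_ (funext fun j => ?_)))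
  · change (1 : M2) * a c' = a c'
    rw [one_mul]
  · change b c' * (a c')⁻¹ * a c' + (1 : ℂ) • (0 : Matrix (R c') (Fin 2) ℂ) = b c'
    rw [smul_zero, add_zero, Matrix.mul_assoc, Matrix.nonsing_inv_mul _ (by rw [ha]; exact isUnit_one),
      Matrix.mul_one]
  · change (1 : ℂ) * 1 = 1
    ring
  · change (0 : ℂ) * 1 + 1 * 0 = 0
    ring

end

end Pool.Agent.X306.RL
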