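import Pool.Agent.X306.RL.Br

set_option autoImplicit false
set_option linter.unusedVariables false
set_option linter.unusedSectionVars false
set_option linter.unusedSimpArgs false

/-!
# The Lie algebra of a subtorsor is the Lie algebra of its group
-/

open Matrix MvPolynomial

noncomputable section

namespace Pool.Agent.X306.RL

open Pool.Agent.TH127.PT Pool.Agent.Y123.ST Pool.Agent.TH119.DR

variable {N : Type} [Fintype N] [DecidableEq N]

/-- the group of a torsor -/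
def Gp (T : Set (Matrix N N ℂ)) : Set (Matrix N N ℂ) := {g | ∃ x ∈ T, ∃ y ∈ T, g = x * y⁻¹}

/-- the group is defined over `F` -/
def GDef (F : Subfield ℂ) (T : Set (Matrix N N ℂ)) : Prop :=
  ∃ I : Set (MvPolynomial (N × N) ℂ), (∀ p ∈ I, ∀ m, p.coeff m ∈ F) ∧
    ∀ g : Matrix N N ℂ, (∃ x ∈ T, ∃ y ∈ T, g = x * y⁻¹) ↔ IsUnit g ∧
      ∀ p ∈ I, MvPolynomial.eval (fun b => g b.1 b.2) p = 0

variable {K F : Subfield ℂ} {T : Set (Matrix N N ℂ)}

theorem gp_sub (hT : IsSubtorsor K T) (hG : GDef F T) : IsSubtorsor F (Gp T) := by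
  refine ⟨?_, ?_, ?_⟩
  · rintro _ ⟨x, hx, y, hy, rfl⟩
    exact (hT.isUnit x hx).mul ((Matrix.isUnit_nonsing_inv_iff).2 (hT.isUnit y hy))
  · rintro _ ⟨a, ha, b, hb, rfl⟩ _ ⟨a', ha', b', hb', rfl⟩ _ ⟨a'', ha'', b'', hb'', rfl⟩
    refine ⟨a * b⁻¹ * b' * a'⁻¹ * a'', ?_, b'', hb'', ?_⟩
    · exact hT.torsor _ (hT.torsor a ha b hb b' hb') a' ha' a'' ha''
    · rw [Matrix.mul_inv_rev, Matrix.nonsing_inv_nonsing_inv _ ((Matrix.isUnit_iff_isUnit_det _).1 (hT.isUnit b' hb'))]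
      simp only [Matrix.mul_assoc]
  · obtain ⟨I, h1, h2⟩ := hG
    exact ⟨I, h1, h2⟩

theorem LL_gp (hT : IsSubtorsor K T) {c : Matrix N N ℂ} (hc : c ∈ T) : LL T = LL (Gp T) := by
  apply le_antisymm
  · intro w hw P hP g hg
    obtain ⟨x, hx, y, hy, rfl⟩ := hg
    have h1 : Van T (cp (mr y⁻¹) P) := by
      intro z hz
      rw [eval_cp, mr_fl]
      exact hP _ ⟨z, hz, y, hy, rfl⟩
    have h2 := hw _ h1 x hx
    rw [dd_cp, mr_fl, mr_fl, Matrix.mul_assoc] at h2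
    exact h2
  · intro w hw P hP x hx
    have h1 : Van (Gp T) (cp (mr x) P) := by
      rintro _ ⟨a, ha, b, hb, rfl⟩
      rw [eval_cp, mr_fl]
      exact hP _ (hT.torsor a ha b hb x hx)
    have h2 := hw _ h1 1 ⟨x, hx, x, hx, (mul_inv' hT hx).symm⟩
    rw [dd_cp, mr_fl, mr_fl, Matrix.mul_one, Matrix.one_mul] at h2
    exact h2

theorem LL_defF (hT : IsSubtorsor K T) (hG : GDef F T) {c : Matrix N N ℂ} (hc : c ∈ T) : DefOver F (LL T) := by
  rw [LL_gp hT hc]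
  exact LL_def (gp_sub hT hG)

end Pool.Agent.X306.RL
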