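import Pool.Agent.X306.RL.Sg

set_option autoImplicit false
set_option linter.unusedVariables false
set_option linter.unusedSectionVars false
set_option linter.unusedSimpArgs false

/-!
# The kernel of the projection to the first block, and the dichotomy
-/

open Matrix MvPolynomial

noncomputable section

namespace Pool.Agent.X306.RL

open Pool.Agent.TH127.PT Pool.Agent.Y123.ST Pool.Agent.TH119.DR Pool.Agent.TH119.MX Pool.Agent.X306.EM

variable {C : Type} [Fintype C] [DecidableEq C] {R : C → Type} [∀ c, Fintype (R c)]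
  [∀ c, DecidableEq (R c)] {J : Type} [Fintype J] [DecidableEq J] {B : Type} [Fintype B] [DecidableEq B]

variable {T : Set (Matrix (B ⊕ Ix C R J) (B ⊕ Ix C R J) ℂ)}

/-- the kernel of the projection to the first block -/
def Kd (T : Set (Matrix (B ⊕ Ix C R J) (B ⊕ Ix C R J) ℂ)) : Submodule ℂ (LT C R J) :=
  (Gr T).comap (LinearMap.inr ℂ (Matrix B B ℂ) (LT C R J))

theorem mem_Kd {x : LT C R J} : x ∈ Kd T ↔ ((0 : Matrix B B ℂ), x) ∈ Gr T := Iff.rfl

theorem Kd_br {x k : LT C R J} (hx : x ∈ Sg T) (hk : k ∈ Kd T) : br x k ∈ Kd T := by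
  obtain ⟨y, h⟩ := mem_Sg.1 hx
  have h1 := Gr_br h (mem_Kd.1 hk)
  rw [Matrix.mul_zero, Matrix.zero_mul, sub_zero] at h1
  exact h1

/-- the components of a Lie bracket -/
theorem br1 (x y : LT C R J) (c : C) : (br x y).1 c = x.1 c * y.1 c - y.1 c * x.1 c := rfl

theorem br1q (x y : LT C R J) (c : C) :
    (br x y).1 c = q0 (x.1 c) * q0 (y.1 c) - q0 (y.1 c) * q0 (x.1 c) := by
  rw [comm_q0]
  rfl

theorem brs1 (c : C) (y : M2) (k : LT C R J) : (br (Pi.single c y, 0, 0, 0) k).1 c = y * k.1 c - k.1 c * y := by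
  change Pi.single (M := fun _ : C => M2) c y c * k.1 c - k.1 c * Pi.single (M := fun _ : C => M2) c y c = _
  rw [Pi.single_eq_same]

theorem brs1q (c : C) {y : M2} (hy : y.trace = 0) (k : LT C R J) :
    (br (Pi.single c y, 0, 0, 0) k).1 c = y * q0 (k.1 c) - q0 (k.1 c) * y := by
  rw [brs1, ← comm_q0, q0_of_trace hy]

theorem brs0 {c c' : C} (h : c' ≠ c) (y : M2) (k : LT C R J) : (br (Pi.single c y, 0, 0, 0) k).1 c' = 0 := by
  change Pi.single (M := fun _ : C => M2) c y c' * k.1 c' - k.1 c' * Pi.single (M := fun _ : C => M2) c y c' = _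
  rw [Pi.single_eq_of_ne h, Matrix.zero_mul, Matrix.mul_zero, sub_zero]

theorem sum_pi (x : C → M2) (b : C → (c : C) → Matrix (R c) (Fin 2) ℂ) :
    ∑ c, ((Pi.single c (x c), b c, 0, 0) : LT C R J) = (x, ∑ c, b c, 0, 0) := by
  refine Prod.ext ?_ (Prod.ext ?_ (Prod.ext ?_ ?_))
  · rw [Prod.fst_sum]
    exact Finset.univ_sum_single x
  · rw [Prod.snd_sum, Prod.fst_sum]
  · rw [Prod.snd_sum, Prod.snd_sum, Prod.fst_sum]
    exact Finset.sum_eq_zero fun _ _ => rfl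
  · rw [Prod.snd_sum, Prod.snd_sum, Prod.snd_sum]
    exact Finset.sum_eq_zero fun _ _ => rfl

section

variable (hfull : ∀ x : LT C R J, (∀ c, (x.1 c).trace = x.2.2.1) → x ∈ Sg T)

include hfull

/-- elements of the Lie algebra with one component -/
theorem single_mem (c : C) {x : M2} (hx : x.trace = 0) : ((Pi.single c x, 0, 0, 0) : LT C R J) ∈ Sg T := by
  refine hfull _ fun c' => ?_
  change (Pi.single (M := fun _ : C => M2) c x c').trace = 0
  by_cases h : c' = c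
  · subst h
    rw [Pi.single_eq_same, hx]
  · rw [Pi.single_eq_of_ne h, Matrix.trace_zero]

/-- the ideal of the traceless parts of one component -/
theorem comp_all (c : C) {k : LT C R J} (hk : k ∈ Kd T) (h0 : q0 (k.1 c) ≠ 0) {x : M2} (hx : x.trace = 0) :
    ∃ k ∈ Kd T, q0 (k.1 c) = x := by
  have h1 := ideal_top (I := (Kd T).map (prq c)) ?_ ?_ ⟨k, hk, rfl⟩ h0 x hx
  · obtain ⟨k', hk', e⟩ := h1
    exact ⟨k', hk', e⟩
  · rintro _ ⟨k', _, rfl⟩
    exact trace_q0 _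
  · rintro _ ⟨k', hk', rfl⟩ y hy
    refine ⟨-br (Pi.single c y, 0, 0, 0) k', (Kd T).neg_mem (Kd_br (single_mem hfull c hy) hk'), ?_⟩
    have h2 : q0 ((br (Pi.single c y, 0, 0, 0) k').1 c) = y * q0 (k'.1 c) - q0 (k'.1 c) * y := by
      rw [q0_of_trace, brs1q c hy]
      rw [brs1, Matrix.trace_sub, Matrix.trace_mul_comm, sub_self]
    rw [map_neg, prq_apply, h2, neg_sub]
    rfl

/-- the double bracket -/
theorem lift_step (c : C) (h : ∀ x : M2, x.trace = 0 → ∃ k ∈ Kd T, q0 (k.1 c) = x) {x : M2} (hx : x.trace = 0) :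
    ∃ k ∈ Kd T, k.1 c = x ∧ (∀ c', c' ≠ c → k.1 c' = 0) ∧ k.2.2.1 = 0 ∧
      ∃ (ke kf : LT C R J) , ke ∈ Kd T ∧ kf ∈ Kd T ∧
        k = x 0 0 • br (Pi.single c se, 0, 0, 0) kf + (x 0 1 / 2) • br (Pi.single c sh, 0, 0, 0) ke +
          (-(x 1 0 / 2)) • br (Pi.single c sh, 0, 0, 0) kf := by
  obtain ⟨ke, hke, he⟩ := h se tr_se
  obtain ⟨kf, hkf, hf⟩ := h sf tr_sf
  refine ⟨x 0 0 • br (Pi.single c se, 0, 0, 0) kf + (x 0 1 / 2) • br (Pi.single c sh, 0, 0, 0) ke +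
      (-(x 1 0 / 2)) • br (Pi.single c sh, 0, 0, 0) kf,
    (Kd T).add_mem ((Kd T).add_mem ((Kd T).smul_mem _ (Kd_br (single_mem hfull c tr_se) hkf))
      ((Kd T).smul_mem _ (Kd_br (single_mem hfull c tr_sh) hke)))
      ((Kd T).smul_mem _ (Kd_br (single_mem hfull c tr_sh) hkf)), ?_, ?_, ?_, ke, kf, hke, hkf, rfl⟩
  · change x 0 0 • (br (Pi.single c se, 0, 0, 0) kf).1 c + (x 0 1 / 2) • (br (Pi.single c sh, 0, 0, 0) ke).1 c +
      (-(x 1 0 / 2)) • (br (Pi.single c sh, 0, 0, 0) kf).1 c = x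
    rw [brs1q c tr_se, brs1q c tr_sh, brs1q c tr_sh, he, hf]
    exact (decomp hx).symm
  · intro c' hc'
    change x 0 0 • (br (Pi.single c se, 0, 0, 0) kf).1 c' + (x 0 1 / 2) • (br (Pi.single c sh, 0, 0, 0) ke).1 c' +
      (-(x 1 0 / 2)) • (br (Pi.single c sh, 0, 0, 0) kf).1 c' = 0
    rw [brs0 hc', brs0 hc', brs0 hc']
    simp
  · change x 0 0 * 0 + (x 0 1 / 2) * 0 + (-(x 1 0 / 2)) * 0 = (0 : ℂ)
    ring

/-- elements with one component in the kernel -/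
theorem comp_mem (c : C) {k : LT C R J} (hk : k ∈ Kd T) (h0 : q0 (k.1 c) ≠ 0) {x : M2} (hx : x.trace = 0) :
    ∃ b : (c : C) → Matrix (R c) (Fin 2) ℂ, ((Pi.single c x, b, 0, 0) : LT C R J) ∈ Kd T := by
  have h1 : ∀ x : M2, x.trace = 0 → ∃ k ∈ Kd T, q0 (k.1 c) = x := fun x hx => comp_all hfull c hk h0 hx
  have h2 : ∀ x : M2, x.trace = 0 → ∃ k ∈ Kd T, k.1 c = x ∧ (∀ c', c' ≠ c → k.1 c' = 0) ∧ k.2.2.1 = 0 := by
    intro x hx
    obtain ⟨k, hk, e1, e2, e3, _⟩ := lift_step hfull c h1 hx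
    exact ⟨k, hk, e1, e2, e3⟩
  obtain ⟨ke, hke, e1, e2, e3⟩ := h2 se tr_se
  obtain ⟨kf, hkf, f1, f2, f3⟩ := h2 sf tr_sf
  obtain ⟨k', hk'⟩ : ∃ k', k' = x 0 0 • br (Pi.single c se, 0, 0, 0) kf + (x 0 1 / 2) • br (Pi.single c sh, 0, 0, 0) ke +
      (-(x 1 0 / 2)) • br (Pi.single c sh, 0, 0, 0) kf := ⟨_, rfl⟩
  have hkK : k' ∈ Kd T := by
    rw [hk']
    exact (Kd T).add_mem ((Kd T).add_mem ((Kd T).smul_mem _ (Kd_br (single_mem hfull c tr_se) hkf))
      ((Kd T).smul_mem _ (Kd_br (single_mem hfull c tr_sh) hke)))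
      ((Kd T).smul_mem _ (Kd_br (single_mem hfull c tr_sh) hkf))
  refine ⟨k'.2.1, ?_⟩
  have h3 : k' = (Pi.single c x, k'.2.1, 0, 0) := by
    refine Prod.ext (funext fun c' => ?_) (Prod.ext rfl (Prod.ext ?_ (funext fun j => ?_)))
    · rw [hk']
      change x 0 0 • (br (Pi.single c se, 0, 0, 0) kf).1 c' + (x 0 1 / 2) • (br (Pi.single c sh, 0, 0, 0) ke).1 c' +
        (-(x 1 0 / 2)) • (br (Pi.single c sh, 0, 0, 0) kf).1 c' = Pi.single (M := fun _ : C => M2) c x c'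
      by_cases h : c' = c
      · subst h
        rw [brs1, brs1, brs1, e1, f1, Pi.single_eq_same]
        exact (decomp hx).symm
      · rw [brs0 h, brs0 h, brs0 h, Pi.single_eq_of_ne h]
        simp
    · rw [hk']
      change x 0 0 * 0 + (x 0 1 / 2) * 0 + (-(x 1 0 / 2)) * 0 = (0 : ℂ)
      ring
    · rw [hk']
      change x 0 0 * (0 * kf.2.2.1 - kf.2.2.2 j * 0) + (x 0 1 / 2) * (0 * ke.2.2.1 - ke.2.2.2 j * 0) +
        (-(x 1 0 / 2)) * (0 * kf.2.2.1 - kf.2.2.2 j * 0) = (0 : ℂ)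
      ring
  rw [← h3]
  exact hkK

/-- **The first alternative.** -/
theorem Kd_full (hk : ∀ c, ∃ k ∈ Kd T, q0 (k.1 c) ≠ 0) {x : C → M2} (hx : ∀ c, (x c).trace = 0)
    (b : (c : C) → Matrix (R c) (Fin 2) ℂ) : ((x, b, 0, 0) : LT C R J) ∈ Kd T := by
  have h1 : ∀ x : C → M2, (∀ c, (x c).trace = 0) → ∃ b, ((x, b, 0, 0) : LT C R J) ∈ Kd T := by
    intro x hx
    choose k hk1 hk2 using hk
    choose b hb using fun c => comp_mem hfull c (hk1 c) (hk2 c) (hx c)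
    refine ⟨∑ c, b c, ?_⟩
    rw [← sum_pi]
    exact (Kd T).sum_mem fun c _ => hb c
  have h2 : ∀ b : (c : C) → Matrix (R c) (Fin 2) ℂ, ((0, b, 0, 0) : LT C R J) ∈ Kd T := by
    intro b
    obtain ⟨b', hb'⟩ := h1 (fun _ => sh) fun _ => tr_sh
    have h3 := Kd_br (hfull ((0, fun c => b c * sh, 0, 0) : LT C R J) fun c => Matrix.trace_zero _ _) hb'
    refine (congrArg (· ∈ Kd T) ?_).mp h3
    refine Prod.ext (funext fun c => ?_) (Prod.ext (funext fun c => ?_) (Prod.ext rfl (funext fun j => ?_)))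
    · change (0 : M2) * sh - sh * 0 = 0
      rw [Matrix.mul_zero, Matrix.zero_mul, sub_self]
    · change b c * sh * sh - b' c * 0 = b c
      rw [Matrix.mul_assoc, sh_sq, Matrix.mul_one, Matrix.mul_zero, sub_zero]
    · change (0 : ℂ) * 0 - 0 * 0 = 0
      ring
  obtain ⟨b', hb'⟩ := h1 x hx
  have h3 := (Kd T).add_mem hb' (h2 (b - b'))
  refine (congrArg (· ∈ Kd T) ?_).mp h3
  refine Prod.ext (add_zero _) (Prod.ext (add_sub_cancel _ _) (Prod.ext (add_zero _) (add_zero _)))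

end

end Pool.Agent.X306.RL
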