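import Pool.Agent.X306.RL.Tri

set_option autoImplicit false
set_option linter.unusedVariables false
set_option linter.unusedSectionVars false
set_option linter.unusedSimpArgs false

/-!
# The relative theorem
-/

open scoped PeriodPair
open Matrix MvPolynomial

noncomputable section

namespace Pool.Agent.X306.RL

open Pool.Agent.TH127.PT Pool.Agent.Y123.ST Pool.Agent.TH119.DR Pool.Agent.TH119.MX Pool.Agent.X306.EM H667R3 W245.EB

variable {C : Type} [Fintype C] [DecidableEq C] {R : C → Type} [∀ c, Fintype (R c)]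
  [∀ c, DecidableEq (R c)] {J : Type} [Fintype J] [DecidableEq J] {B : Type} [Fintype B] [DecidableEq B]

theorem rel_main {L : C → PeriodPair} (h2 : ∀ c, IsAlgebraic ℚ (L c).g₂) (h3 : ∀ c, IsAlgebraic ℚ (L c).g₃)
    (hCM : ∀ c, ∀ α : ℂ, (∀ w ∈ (L c).lattice, α * w ∈ (L c).lattice) → ∃ n : ℤ, α = n)
    (hiso : ∀ c c', c ≠ c' → ∀ α : ℂ, (∀ w ∈ (L c).lattice, α * w ∈ (L c').lattice) → α = 0)
    {u : (c : C) → R c → ℂ} (hu : ∀ c r, u c r ∉ (L c).lattice ∧ IsAlgebraic ℚ (℘[L c] (u c r)))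
    (hui : ∀ c, ∀ n : R c → ℤ, ∑ r, (n r : ℂ) * u c r ∈ (L c).lattice → n = 0)
    {l : J → ℂ} (hl : ∀ j, IsAlgebraic ℚ (Complex.exp (l j)))
    (hli : ∀ n : J → ℤ, Complex.exp (∑ j, (n j : ℂ) * l j) = 1 → n = 0)
    {C₀ : Matrix B B ℂ} (h0 : IsUnit C₀) {T : Set (Matrix (B ⊕ Ix C R J) (B ⊕ Ix C R J) ℂ)} (hT : IsSubtorsor QB T)
    {F : Subfield ℂ} (hFQ : F ≤ QB) (hF : DefOver F (LL T)) (hor : F = QQ ∨ Subsingleton C)
    (hc : cm (pers L u l) C₀ ∈ T)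
    (hno : ∀ c Γ, ¬ Cpl F QB C₀ ((pers L u l).P c) ((pers L u l).P' c) Γ) {a : C → M2} (ha : ∀ c, (a c).det = 1)
    (b : (c : C) → Matrix (R c) (Fin 2) ℂ) : Pst T (bm ((a, b, 1, 0) : LT C R J) 1) := by
  have hKA : ∀ x : ℂ, IsAlgebraic ℚ x → x ∈ QB := fun x => (QB_iff x).1
  have hKA' : ∀ x ∈ QB, IsAlgebraic ℚ x := fun x => (QB_iff x).2
  have hI := pers_indep h2 h3 hCM hu hui hl hli
  have hS : Good (pers L u l) F QB (Sg T) := good_Sg hT hF hKA' (pers_leg L u l) h0 hc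
  have hpair : ∀ c c', c ≠ c' → ∀ x : M2, x.trace = 0 → ∃ X ∈ Sg T, q0 (X.1 c) = x ∧ q0 (X.1 c') = 0 := by
    intro c c' hcc x hx
    rcases hor with rfl | hs
    · exact pair_main h2 h3 hI hS (hiso c' c (Ne.symm hcc)) hx
    · exact absurd (Subsingleton.elim c c') hcc
  refine dich hT hF h0 hc (fun x hx => ?_) hno ha b
  exact hS.main (fun c x hx => hS.iso' hI hFQ sqc hKA hpair c hx) hI hFQ hKA hx

theorem rel_no_cpl {m : ℕ} {L : C → PeriodPair} (h2 : ∀ c, IsAlgebraic ℚ (L c).g₂) (h3 : ∀ c, IsAlgebraic ℚ (L c).g₃)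
    (hCM : ∀ c, ∀ α : ℂ, (∀ w ∈ (L c).lattice, α * w ∈ (L c).lattice) → ∃ n : ℤ, α = n)
    {F : Subfield ℂ} (hFQ : F ≤ QB) (c : C) {C₀ A A' M M' : Matrix (Fin m) (Fin m) ℂ} (h0 : IsUnit C₀) (hA : A * A' = 1)
    (hAK : ∀ i j, A i j ∈ QB) (hAK' : ∀ i j, A' i j ∈ QB) (hM : M * M' = 1) (hMK : ∀ i j, M i j ∈ QB)
    (hMK' : ∀ i j, M' i j ∈ QB) (hU : ∀ i j, j < i → (A * C₀ * M) i j = 0) {P P' : M2}
    (hP : P = !![(L c).ω₁, eta (L c) (L c).ω₁; (L c).ω₂, eta (L c) (L c).ω₂]) (h1 : P * P' = 1)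
    {Γ : Submodule ℂ (Matrix (Fin m) (Fin m) ℂ × M2)} (hΓ : Cpl F QB C₀ P P' Γ) : False := by
  have hI : Indep (pers L (fun c (r : Empty) => r.elim) (fun j : Empty => j.elim)) QB :=
    pers_indep h2 h3 hCM (fun c r => r.elim) (fun c n _ => funext fun r => r.elim) (fun j => j.elim)
      (fun n _ => funext fun r => r.elim)
  have hlin : Lin2 QB P := by
    rw [hP]
    exact hI.lin2 c
  exact no_cpl hFQ sqc QB_iff h1 (mul_eq_one_comm.1 h1) hlin h0 hA hAK hAK' hM hMK hMK' hU hΓ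

end Pool.Agent.X306.RL
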