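import Pool.Agent.X306.RL.Cpl

set_option autoImplicit false
set_option linter.unusedVariables false
set_option linter.unusedSectionVars false
set_option linter.unusedSimpArgs false

/-!
# Iterated extensions of objects of rank one do not see the Lie algebra of an elliptic curve
-/

open Matrix MvPolynomial

noncomputable section

namespace Pool.Agent.X306.RL

open Pool.Agent.TH127.PT Pool.Agent.Y123.ST Pool.Agent.TH119.DR Pool.Agent.TH119.MX Pool.Agent.X306.EM W245.EB

variable {F K : Subfield ℂ}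

theorem map_left {m : Type} [Fintype m] (f : ℂ →ₗ[K] ℂ) {A : Matrix m m ℂ} (hA : ∀ i j, A i j ∈ K) (X : Matrix m m ℂ) :
    (A * X).map f = A * X.map f := by
  ext i j
  simp only [Matrix.map_apply, Matrix.mul_apply, map_sum]
  exact Finset.sum_congr rfl fun k _ => lin_mul f (hA i k) _

theorem map_right {m : Type} [Fintype m] (f : ℂ →ₗ[K] ℂ) {A : Matrix m m ℂ} (hA : ∀ i j, A i j ∈ K) (X : Matrix m m ℂ) :
    (X * A).map f = X.map f * A := by
  ext i j
  simp only [Matrix.map_apply, Matrix.mul_apply, map_sum]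
  exact Finset.sum_congr rfl fun k _ => lin_mul' f (hA k j) _

theorem map_smulK {m : Type} (f : ℂ →ₗ[K] ℂ) {A : Matrix m m ℂ} (hA : ∀ i j, A i j ∈ K) (a : ℂ) :
    (a • A).map f = f a • A := by
  ext i j
  simp only [Matrix.map_apply, Matrix.smul_apply, smul_eq_mul]
  exact lin_mul' f (hA i j) _

/-- there is no invariant line in the Lie algebra of a curve without complex multiplication -/
theorem no_line (hK : SqClosed K) (hKA : ∀ x, IsAlgebraic ℚ x ↔ x ∈ K) {P P' : M2} (h1 : P * P' = 1) (h2 : P' * P = 1)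
    (hlin : Lin2 K P) {n : M2} (hn : n ≠ 0) (htr : n.trace = 0) (hn1 : ∀ i j, n i j ∈ K) {μ : ℂ} (hμ : μ ≠ 0)
    (hn2 : ∀ i j, (P' * (μ • n) * P) i j ∈ K) : False := by
  set n₂ := P' * (μ • n) * P with hn₂
  have e1 : P * n₂ * P' = μ • n := by
    rw [hn₂]
    calc P * (P' * (μ • n) * P) * P' = (P * P') * (μ • n) * (P * P') := by simp only [Matrix.mul_assoc]
      _ = _ := by rw [h1, Matrix.one_mul, Matrix.mul_one]
  let N : Submodule ℂ M2 :=
    { carrier := {X | X.trace = 0 ∧ ∃ a : ℂ, n * X - X * n = a • n}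
      zero_mem' := ⟨Matrix.trace_zero _ _, 0, by simp⟩
      add_mem' := by
        rintro X Y ⟨hX, a, ha⟩ ⟨hY, b, hb⟩
        refine ⟨by rw [Matrix.trace_add, hX, hY, add_zero], a + b, ?_⟩
        rw [add_smul, ← ha, ← hb, Matrix.mul_add, Matrix.add_mul]
        abel
      smul_mem' := by
        rintro r X ⟨hX, a, ha⟩
        refine ⟨by rw [Matrix.trace_smul, hX, smul_zero], r * a, ?_⟩
        rw [mul_smul, ← ha, Matrix.mul_smul, Matrix.smul_mul, smul_sub] }
  have hN : ∀ X : M2, X ∈ N ↔ X.trace = 0 ∧ ∃ a : ℂ, n * X - X * n = a • n := fun X => Iff.rfl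
  have hall : ∀ X : M2, X.trace = 0 → X ∈ N := by
    intro X hX
    refine sl2_full (F := K) le_rfl hK (fun x hx => (hKA x).1 hx) h1 h2 hlin N (fun X hX => hX.1) ?_ ?_ ?_ hX
    · rintro f X ⟨hX, a, ha⟩
      refine ⟨?_, f a, ?_⟩
      · rw [Matrix.trace_fin_two] at hX ⊢
        rw [Matrix.map_apply, Matrix.map_apply, ← map_add, hX, map_zero]
      · rw [← map_left f hn1, ← map_right f hn1, ← map_smulK f hn1, ← ha]
        ext i j
        simp
    · rintro f X ⟨hX, a, ha⟩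
      have e3 : (P' * X * P).trace = 0 := by
        rw [Matrix.trace_mul_comm, ← Matrix.mul_assoc, h1, Matrix.one_mul, hX]
      refine ⟨?_, f a, ?_⟩
      · rw [Matrix.trace_mul_comm, ← Matrix.mul_assoc, h2, Matrix.one_mul]
        rw [Matrix.trace_fin_two] at e3 ⊢
        rw [Matrix.map_apply, Matrix.map_apply, ← map_add, e3, map_zero]
      · have e4 : n₂ * (P' * X * P) - (P' * X * P) * n₂ = a • n₂ := by
          have e5 : n₂ * (P' * X * P) = P' * (μ • (n * X)) * P := by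
            rw [hn₂]
            calc P' * (μ • n) * P * (P' * X * P) = P' * (μ • n) * (P * P') * X * P := by simp only [Matrix.mul_assoc]
              _ = _ := by rw [h1, Matrix.mul_one]; simp only [Matrix.mul_assoc, Matrix.smul_mul, Matrix.mul_smul]
          have e6 : (P' * X * P) * n₂ = P' * (μ • (X * n)) * P := by
            rw [hn₂]
            calc P' * X * P * (P' * (μ • n) * P) = P' * X * (P * P') * (μ • n) * P := by simp only [Matrix.mul_assoc]
              _ = _ := by rw [h1, Matrix.mul_one]; simp only [Matrix.mul_assoc, Matrix.smul_mul, Matrix.mul_smul]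
          rw [e5, e6, ← Matrix.sub_mul, ← Matrix.mul_sub, ← smul_sub, ha, hn₂, smul_comm, Matrix.mul_smul,
            Matrix.smul_mul]
        set Z := (P' * X * P).map f with hZ
        have e7 : n₂ * Z - Z * n₂ = f a • n₂ := by
          rw [hZ, ← map_left f hn2, ← map_right f hn2, ← map_smulK f hn2, ← e4]
          ext i j
          simp
        have e8 : μ • (n * (P * Z * P') - P * Z * P' * n) = μ • (f a • n) := by
          rw [smul_sub, ← Matrix.smul_mul, ← Matrix.mul_smul, ← e1]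
          calc P * n₂ * P' * (P * Z * P') - P * Z * P' * (P * n₂ * P') =
              P * n₂ * (P' * P) * Z * P' - P * Z * (P' * P) * n₂ * P' := by simp only [Matrix.mul_assoc]
            _ = P * (n₂ * Z - Z * n₂) * P' := by
                rw [h2, Matrix.mul_one, Matrix.mul_one, Matrix.mul_sub, Matrix.sub_mul]
                simp only [Matrix.mul_assoc]
            _ = μ • (f a • n) := by
                rw [e7, Matrix.mul_smul, Matrix.smul_mul, e1, smul_comm]
        have e9 := congrArg (fun X => μ⁻¹ • X) e8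
        simp only [smul_smul, inv_mul_cancel₀ hμ, one_smul] at e9
        have e10 : μ⁻¹ * (μ * f a) = f a := inv_mul_cancel_left₀ hμ _
        rw [e10] at e9
        exact e9
    · intro δ
      have hnd : n.map δ = 0 := by
        ext i j
        exact deriv_alg δ ((hKA _).2 (hn1 i j))
      have hnd2 : n₂.map δ = 0 := by
        ext i j
        exact deriv_alg δ ((hKA _).2 (hn2 i j))
      have e3 : P * n₂ = μ • (n * P) := by
        calc P * n₂ = P * n₂ * (P' * P) := by rw [h2, Matrix.mul_one]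
          _ = (P * n₂ * P') * P := by simp only [Matrix.mul_assoc]
          _ = _ := by rw [e1, Matrix.smul_mul]
      have e4 : P.map δ * n₂ = δ μ • (n * P) + μ • (n * P.map δ) := by
        have h3 := congrArg (fun X : M2 => X.map δ) e3
        simp only [map_mul_der, hnd2, Matrix.mul_zero, add_zero] at h3
        rw [h3]
        have h4 : (μ • (n * P)).map δ = δ μ • (n * P) + μ • (n * P).map δ := by
          ext i j
          simp only [Matrix.map_apply, Matrix.smul_apply, Matrix.add_apply, smul_eq_mul, Derivation.leibniz]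
          ring
        rw [h4, map_mul_der, hnd, Matrix.zero_mul, zero_add]
      have e5 : μ • (P.map δ * P' * n) = δ μ • n + μ • (n * (P.map δ * P')) := by
        calc μ • (P.map δ * P' * n) = P.map δ * P' * (P * n₂ * P') := by rw [e1, Matrix.mul_smul]
          _ = P.map δ * (P' * P) * n₂ * P' := by simp only [Matrix.mul_assoc]
          _ = (P.map δ * n₂) * P' := by rw [h2, Matrix.mul_one]
          _ = _ := by
              rw [e4, Matrix.add_mul, Matrix.smul_mul, Matrix.smul_mul, Matrix.mul_assoc, h1, Matrix.mul_one,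
                Matrix.mul_assoc]
      refine ⟨?_, -(δ μ / μ), ?_⟩
      · exact trace_q0 _
      · have e6 : n * (P.map δ * P' - ((P.map δ * P').trace / 2) • (1 : M2)) -
            (P.map δ * P' - ((P.map δ * P').trace / 2) • (1 : M2)) * n = n * (P.map δ * P') - P.map δ * P' * n := by
          rw [Matrix.mul_sub, Matrix.sub_mul, Matrix.mul_smul, Matrix.smul_mul, Matrix.mul_one, Matrix.one_mul]
          abel
        rw [e6]
        have e7 : μ • (n * (P.map δ * P') - P.map δ * P' * n) = μ • (-(δ μ / μ) • n) := by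
          rw [smul_sub, e5, smul_smul, mul_neg, mul_div_cancel₀ _ hμ, neg_smul]
          abel
        have e9 := congrArg (fun X => μ⁻¹ • X) e7
        simp only [smul_smul, inv_mul_cancel₀ hμ, one_smul] at e9
        rw [e9, inv_mul_cancel_left₀ hμ]
  have hI := ideal_top (I := Submodule.span ℂ {n}) (fun x hx => by
      obtain ⟨a, rfl⟩ := Submodule.mem_span_singleton.1 hx
      rw [Matrix.trace_smul, htr, smul_zero]) (fun x hx y hy => by
      obtain ⟨a, rfl⟩ := Submodule.mem_span_singleton.1 hx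
      obtain ⟨_, b, hb⟩ := hall y hy
      refine Submodule.mem_span_singleton.2 ⟨a * b, ?_⟩
      rw [mul_smul, ← hb, Matrix.smul_mul, Matrix.mul_smul, smul_sub]) (Submodule.mem_span_singleton_self n) hn
  obtain ⟨a, ha⟩ := Submodule.mem_span_singleton.1 (hI se tr_se)
  obtain ⟨b, hb⟩ := Submodule.mem_span_singleton.1 (hI sf tr_sf)
  have ha1 := congrFun (congrFun ha 0) 1
  have ha2 := congrFun (congrFun ha 1) 0
  have hb1 := congrFun (congrFun hb 0) 1
  have hb2 := congrFun (congrFun hb 1) 0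
  simp only [Matrix.smul_apply, smul_eq_mul, se, sf, Matrix.of_apply, Matrix.cons_val', Matrix.cons_val_zero,
    Matrix.cons_val_one, Matrix.cons_val_fin_one] at ha1 ha2 hb1 hb2
  have ha0 : a ≠ 0 := by
    rintro rfl
    rw [zero_mul] at ha1
    exact zero_ne_one ha1
  have h3 : n 1 0 = 0 := (mul_eq_zero.1 ha2).resolve_left ha0
  rw [h3, mul_zero] at hb2
  exact zero_ne_one hb2

theorem no_line' (hK : SqClosed K) (hKA : ∀ x, IsAlgebraic ℚ x ↔ x ∈ K) {P P' : M2} (h1 : P * P' = 1) (h2 : P' * P = 1)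
    (hlin : Lin2 K P) (N : Submodule ℂ M2) (htrN : ∀ x ∈ N, x.trace = 0) {n₀ : M2} (hn₀2 : n₀ ∈ N) (hn₀0 : n₀ ≠ 0)
    (hline : ∀ x ∈ N, ∃ a : ℂ, x = a • n₀) (hst1 : ∀ f : ℂ →ₗ[K] ℂ, ∀ x ∈ N, x.map f ∈ N)
    (hst2 : ∀ f : ℂ →ₗ[K] ℂ, ∀ x ∈ N, P * (P' * x * P).map f * P' ∈ N) : False := by
  obtain ⟨f, hfK, hf1⟩ := exists_retr K
  have hpick : ∀ x : M2, x ≠ 0 → ∃ a : ℂ, a ≠ 0 ∧ (∀ i j, ((a • x).map f) i j ∈ K) ∧ (a • x).map f ≠ 0 := by
    intro x hx
    obtain ⟨i, j, hij⟩ : ∃ i j, x i j ≠ 0 := by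
      by_contra hcon
      push Not at hcon
      exact hx (by ext i j; exact hcon i j)
    refine ⟨(x i j)⁻¹, inv_ne_zero hij, fun _ _ => hfK _, fun h => ?_⟩
    have h3 := congrFun (congrFun h i) j
    rw [Matrix.map_apply, Matrix.smul_apply, smul_eq_mul, inv_mul_cancel₀ hij, hf1] at h3
    exact one_ne_zero h3
  obtain ⟨a, ha0, haK, han⟩ := hpick n₀ hn₀0
  have h3 := hst1 f _ (N.smul_mem a hn₀2)
  have hm0 : P' * n₀ * P ≠ 0 := by
    intro h
    apply hn₀0
    calc n₀ = (P * P') * n₀ * (P * P') := by rw [h1, Matrix.one_mul, Matrix.mul_one]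
      _ = P * (P' * n₀ * P) * P' := by simp only [Matrix.mul_assoc]
      _ = 0 := by rw [h, Matrix.mul_zero, Matrix.zero_mul]
  obtain ⟨b, hb0, hbK, hbn⟩ := hpick _ hm0
  have h4 := hst2 f _ (N.smul_mem b hn₀2)
  have e3 : P' * (b • n₀) * P = b • (P' * n₀ * P) := by rw [Matrix.mul_smul, Matrix.smul_mul]
  rw [e3] at h4
  obtain ⟨r, hr⟩ := hline _ h3
  obtain ⟨s, hs⟩ := hline _ h4
  have hr0 : r ≠ 0 := by
    rintro rfl
    rw [zero_smul] at hr
    exact han hr
  have e4 : (b • (P' * n₀ * P)).map f = P' * (s • n₀) * P := by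
    rw [← hs]
    calc (b • (P' * n₀ * P)).map f = (P' * P) * (b • (P' * n₀ * P)).map f * (P' * P) := by
          rw [h2, Matrix.one_mul, Matrix.mul_one]
      _ = _ := by simp only [Matrix.mul_assoc]
  have hs0 : s ≠ 0 := by
    rintro rfl
    rw [zero_smul, Matrix.mul_zero, Matrix.zero_mul] at e4
    exact hbn e4
  refine no_line hK hKA h1 h2 hlin han (htrN _ h3) haK (μ := s / r) (div_ne_zero hs0 hr0) ?_
  intro i j
  have e5 : (s / r) • (a • n₀).map f = s • n₀ := by
    rw [hr, smul_smul, div_mul_cancel₀ _ hr0]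
  rw [e5, ← e4]
  exact hbK i j

/-! ### The filtration -/

variable {m : ℕ}

/-- conjugation by upper triangular matrices -/
theorem tri_conj {V V' z : Matrix (Fin m) (Fin m) ℂ} (hV : ∀ i j, j < i → V i j = 0) (hV' : ∀ i j, j < i → V' i j = 0)
    {S : Finset (Fin m × Fin m)} (hS : ∀ p ∈ S, ∀ k l, p.1 ≤ k → l ≤ p.2 → (k, l) ∈ S)
    (hz : ∀ p ∈ S, z p.1 p.2 = 0) : ∀ p ∈ S, (V * z * V') p.1 p.2 = 0 := by
  intro p hp
  rw [Matrix.mul_apply]
  refine Finset.sum_eq_zero fun l _ => ?_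
  rw [Matrix.mul_apply, Finset.sum_mul]
  refine Finset.sum_eq_zero fun k _ => ?_
  rcases lt_or_ge k p.1 with h | h
  · rw [hV _ _ h, zero_mul, zero_mul]
  · rcases lt_or_ge p.2 l with h' | h'
    · rw [hV' _ _ h', mul_zero]
    · rw [hz _ (hS p hp k l h h'), mul_zero, zero_mul]

/-- the filtration of the traceless matrices -/
def Fl (A A' : Matrix (Fin m) (Fin m) ℂ) (Γ : Submodule ℂ (Matrix (Fin m) (Fin m) ℂ × M2))
    (S : Finset (Fin m × Fin m)) : Submodule ℂ M2 where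
  carrier := {x | ∃ y, (∀ p ∈ S, (A * y * A') p.1 p.2 = 0) ∧ (y, x) ∈ Γ}
  zero_mem' := ⟨0, fun p _ => by simp, Γ.zero_mem⟩
  add_mem' := by
    rintro x x' ⟨y, hy, h⟩ ⟨y', hy', h'⟩
    refine ⟨y + y', fun p hp => ?_, Γ.add_mem h h'⟩
    rw [Matrix.mul_add, Matrix.add_mul, Matrix.add_apply, hy p hp, hy' p hp, add_zero]
  smul_mem' := by
    rintro a x ⟨y, hy, h⟩
    refine ⟨a • y, fun p hp => ?_, Γ.smul_mem a h⟩
    rw [Matrix.mul_smul, Matrix.smul_mul, Matrix.smul_apply, hy p hp, smul_zero]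

theorem mem_Fl {A A' : Matrix (Fin m) (Fin m) ℂ} {Γ : Submodule ℂ (Matrix (Fin m) (Fin m) ℂ × M2)}
    {S : Finset (Fin m × Fin m)} {x : M2} :
    x ∈ Fl A A' Γ S ↔ ∃ y, (∀ p ∈ S, (A * y * A') p.1 p.2 = 0) ∧ (y, x) ∈ Γ := Iff.rfl

theorem conj_tri {C₀ A A' M M' : Matrix (Fin m) (Fin m) ℂ} (hA' : A' * A = 1) (hM : M * M' = 1)
    (hMK : ∀ i j, M i j ∈ K) (hMK' : ∀ i j, M' i j ∈ K) (f : ℂ →ₗ[K] ℂ) (y : Matrix (Fin m) (Fin m) ℂ) :
    A * (C₀ * (C₀⁻¹ * y * C₀).map f * C₀⁻¹) * A' =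
      (A * C₀ * M) * ((M' * C₀⁻¹ * A') * (A * y * A') * (A * C₀ * M)).map f * (M' * C₀⁻¹ * A') := by
  have e1 : C₀⁻¹ * y * C₀ = M * ((M' * C₀⁻¹ * A') * (A * y * A') * (A * C₀ * M)) * M' := by
    calc C₀⁻¹ * y * C₀ = (M * M') * C₀⁻¹ * (A' * A) * y * (A' * A) * C₀ * (M * M') := by
          rw [hM, hA']; simp only [Matrix.one_mul, Matrix.mul_one]
      _ = _ := by simp only [Matrix.mul_assoc]
  rw [e1, map_right f hMK', map_left f hMK]
  simp only [Matrix.mul_assoc]

/-- **Iterated extensions of objects of rank one.** -/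
theorem no_cpl (hFK : F ≤ K) (hK : SqClosed K) (hKA : ∀ x, IsAlgebraic ℚ x ↔ x ∈ K) {P P' : M2} (h1 : P * P' = 1)
    (h2 : P' * P = 1) (hlin : Lin2 K P) {C₀ A A' M M' : Matrix (Fin m) (Fin m) ℂ} (h0 : IsUnit C₀) (hA : A * A' = 1)
    (hAK : ∀ i j, A i j ∈ K) (hAK' : ∀ i j, A' i j ∈ K) (hM : M * M' = 1) (hMK : ∀ i j, M i j ∈ K)
    (hMK' : ∀ i j, M' i j ∈ K) (hU : ∀ i j, j < i → (A * C₀ * M) i j = 0)
    {Γ : Submodule ℂ (Matrix (Fin m) (Fin m) ℂ × M2)} (hΓ : Cpl F K C₀ P P' Γ) : False := by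
  classical
  have hA' : A' * A = 1 := mul_eq_one_comm.1 hA
  have hM' : M' * M = 1 := mul_eq_one_comm.1 hM
  have hC : C₀ * C₀⁻¹ = 1 := c0_inv h0
  have hC' : C₀⁻¹ * C₀ = 1 := inv_c0 h0
  have hUU' : (A * C₀ * M) * (M' * C₀⁻¹ * A') = 1 := by
    calc (A * C₀ * M) * (M' * C₀⁻¹ * A') = A * C₀ * (M * M') * C₀⁻¹ * A' := by simp only [Matrix.mul_assoc]
      _ = A * (C₀ * C₀⁻¹) * A' := by rw [hM, Matrix.mul_one]; simp only [Matrix.mul_assoc]
      _ = 1 := by rw [hC, Matrix.mul_one, hA]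
  have hU' : ∀ i j, j < i → (M' * C₀⁻¹ * A') i j = 0 := by
    have h3 : (A * C₀ * M)⁻¹ = M' * C₀⁻¹ * A' := Matrix.inv_eq_right_inv hUU'
    have h4 : Matrix.BlockTriangular (A * C₀ * M) id := fun i j hij => hU i j hij
    have : Invertible (A * C₀ * M) := ⟨M' * C₀⁻¹ * A', mul_eq_one_comm.1 hUU', hUU'⟩
    have h5 := Matrix.blockTriangular_inv_of_blockTriangular h4
    rw [h3] at h5
    exact fun i j hij => h5 hij
  let DC : Finset (Fin m × Fin m) → Prop := fun S => ∀ p ∈ S, ∀ k l, p.1 ≤ k → l ≤ p.2 → (k, l) ∈ S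
  have hne : (Finset.univ.filter fun S : Finset (Fin m × Fin m) => DC S ∧ Fl A A' Γ S ≠ ⊥).Nonempty := by
    refine ⟨∅, Finset.mem_filter.2 ⟨Finset.mem_univ _, fun p hp => absurd hp (Finset.notMem_empty _), ?_⟩⟩
    intro hbot
    obtain ⟨y, hy⟩ := hΓ.surj se tr_se
    have h3 : se ∈ Fl A A' Γ ∅ := mem_Fl.2 ⟨y, fun p hp => absurd hp (Finset.notMem_empty _), hy⟩
    rw [hbot, Submodule.mem_bot] at h3
    have h4 := congrFun (congrFun h3 0) 1
    simp [se] at h4
  obtain ⟨S, hS, hmax⟩ := Finset.exists_max_image _ (fun S : Finset (Fin m × Fin m) => S.card) hne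
  obtain ⟨_, hDC, hbot⟩ := Finset.mem_filter.1 hS
  have hSu : S ≠ Finset.univ := by
    rintro rfl
    apply hbot
    rw [eq_bot_iff]
    intro x hx
    obtain ⟨y, hy, h⟩ := mem_Fl.1 hx
    have h3 : A * y * A' = 0 := by
      ext i j
      exact hy (i, j) (Finset.mem_univ _)
    have h4 : y = 0 := by
      calc y = (A' * A) * y * (A' * A) := by rw [hA', Matrix.one_mul, Matrix.mul_one]
        _ = A' * (A * y * A') * A := by simp only [Matrix.mul_assoc]
        _ = 0 := by rw [h3, Matrix.mul_zero, Matrix.zero_mul]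
    rw [h4] at h
    exact hΓ.inj x h
  have hne2 : (Finset.univ \ S).Nonempty := by
    rw [Finset.sdiff_nonempty]
    intro h
    exact hSu (Finset.eq_univ_iff_forall.2 fun p => h (Finset.mem_univ p))
  obtain ⟨q, hq, hmin⟩ := Finset.exists_min_image _ (fun p : Fin m × Fin m => p.2.1 + (m - p.1.1)) hne2
  have hqS : q ∉ S := (Finset.mem_sdiff.1 hq).2
  have hDC' : DC (insert q S) := by
    intro p hp k l hk hl
    rcases Finset.mem_insert.1 hp with rfl | hp
    · by_cases hkl : (k, l) ∈ S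
      · exact Finset.mem_insert_of_mem hkl
      · have h3 := hmin (k, l) (Finset.mem_sdiff.2 ⟨Finset.mem_univ _, hkl⟩)
        simp only at h3
        have hk' : p.1.1 ≤ k.1 := hk
        have hl' : l.1 ≤ p.2.1 := hl
        have hk2 := k.2
        have hp2 := p.1.2
        have e1 : k.1 = p.1.1 := by omega
        have e2 : l.1 = p.2.1 := by omega
        have e3 : (k, l) = p := Prod.ext (Fin.ext e1) (Fin.ext e2)
        rw [e3]
        exact Finset.mem_insert_self _ _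
    · exact Finset.mem_insert_of_mem (hDC p hp k l hk hl)
  have hbot' : Fl A A' Γ (insert q S) = ⊥ := by
    by_contra hcon
    have h3 := hmax _ (Finset.mem_filter.2 ⟨Finset.mem_univ _, hDC', hcon⟩)
    rw [Finset.card_insert_of_notMem hqS] at h3
    omega
  -- the line
  obtain ⟨n₀, hn₀, hn₀0⟩ := Submodule.exists_mem_ne_zero_of_ne_bot hbot
  have hn₀2 := hn₀
  obtain ⟨y₀, hy₀, hy₀Γ⟩ := mem_Fl.1 hn₀
  have hz₀ : (A * y₀ * A') q.1 q.2 ≠ 0 := by
    intro h3
    have h4 : n₀ ∈ Fl A A' Γ (insert q S) := mem_Fl.2 ⟨y₀, fun p hp => by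
      rcases Finset.mem_insert.1 hp with rfl | hp
      · exact h3
      · exact hy₀ p hp, hy₀Γ⟩
    rw [hbot', Submodule.mem_bot] at h4
    exact hn₀0 h4
  have hline : ∀ x ∈ Fl A A' Γ S, ∃ a : ℂ, x = a • n₀ := by
    intro x hx
    obtain ⟨y, hy, h⟩ := mem_Fl.1 hx
    refine ⟨(A * y * A') q.1 q.2 / (A * y₀ * A') q.1 q.2, ?_⟩
    have h4 : x - ((A * y * A') q.1 q.2 / (A * y₀ * A') q.1 q.2) • n₀ ∈ Fl A A' Γ (insert q S) := by
      refine mem_Fl.2 ⟨y - ((A * y * A') q.1 q.2 / (A * y₀ * A') q.1 q.2) • y₀, fun p hp => ?_,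
        Γ.sub_mem h (Γ.smul_mem _ hy₀Γ)⟩
      rw [Matrix.mul_sub, Matrix.sub_mul, Matrix.mul_smul, Matrix.smul_mul, Matrix.sub_apply, Matrix.smul_apply,
        smul_eq_mul]
      rcases Finset.mem_insert.1 hp with rfl | hp
      · rw [div_mul_cancel₀ _ hz₀, sub_self]
      · rw [hy p hp, hy₀ p hp, mul_zero, sub_zero]
    rw [hbot', Submodule.mem_bot] at h4
    exact sub_eq_zero.1 h4
  -- stability
  have hst1 : ∀ f : ℂ →ₗ[K] ℂ, ∀ x ∈ Fl A A' Γ S, x.map f ∈ Fl A A' Γ S := by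
    intro f x hx
    obtain ⟨y, hy, h⟩ := mem_Fl.1 hx
    have h3 := hΓ.hF (lower hFK f) (y, x) h
    rw [coe_lower] at h3
    refine mem_Fl.2 ⟨y.map f, fun p hp => ?_, h3⟩
    rw [← map_left f hAK, ← map_right f hAK', Matrix.map_apply, hy p hp, map_zero]
  have hst2 : ∀ f : ℂ →ₗ[K] ℂ, ∀ x ∈ Fl A A' Γ S, P * (P' * x * P).map f * P' ∈ Fl A A' Γ S := by
    intro f x hx
    obtain ⟨y, hy, h⟩ := mem_Fl.1 hx
    have h3 := hΓ.hK f (y, x) h
    refine mem_Fl.2 ⟨C₀ * (C₀⁻¹ * y * C₀).map f * C₀⁻¹, fun p hp => ?_, h3⟩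
    rw [conj_tri hA' hM hMK hMK']
    refine tri_conj hU hU' hDC (fun p hp => ?_) p hp
    rw [Matrix.map_apply, tri_conj hU' hU hDC hy p hp, map_zero]
  exact no_line' hK hKA h1 h2 hlin (Fl A A' Γ S) (fun x hx => by
    obtain ⟨y, _, hy⟩ := mem_Fl.1 hx
    exact hΓ.tr _ hy) hn₀2 hn₀0 hline hst1 hst2

end Pool.Agent.X306.RL
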